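import Mathlib

/-! The strong form of the conjecture `κ_c = κ_pc` for the Winfree model fails, by an unbounded factor. -/

set_option autoImplicit false

namespace Pool.Agent.Results.MP_4423d6_an.Strong

open Set Filter Topology Real

/-- the Winfree vector field -/
noncomputable def W {N : ℕ} (Ω : Fin N → ℝ) (κ : ℝ) (Θ : Fin N → ℝ) (i : Fin N) : ℝ :=
  Ω i - κ / N * ∑ j, (1 + cos (Θ j)) * sin (Θ i)

/-- `Θ` solves the Winfree model on `[0, ∞)` with initial datum `Θ₀` -/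
def IsSol {N : ℕ} (Ω : Fin N → ℝ) (κ : ℝ) (Θ₀ : Fin N → ℝ) (Θ : ℝ → Fin N → ℝ) : Prop :=
  Θ 0 = Θ₀ ∧ ∀ i, ContinuousOn (fun t => Θ t i) (Ici 0) ∧ ∀ t > 0, HasDerivAt (fun s => Θ s i) (W Ω κ (Θ t) i) t

/-- the solution from `Θ₀` converges -/
def Conv {N : ℕ} (Ω : Fin N → ℝ) (κ : ℝ) (Θ₀ : Fin N → ℝ) : Prop :=
  ∃ Θ, IsSol Ω κ Θ₀ Θ ∧ ∀ i, ∃ L, Tendsto (fun t => Θ t i) atTop (𝓝 L)

/-- the critical coupling strength -/
noncomputable def kc {N : ℕ} (Ω : Fin N → ℝ) : EReal :=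
  sInf ((↑) '' {k : ℝ | 0 < k ∧ ∀ κ > k, ∃ Θ, ∀ i, W Ω κ Θ i = 0})

/-- the pathwise critical coupling strength -/
noncomputable def kpc {N : ℕ} (Θ₀ Ω : Fin N → ℝ) : EReal :=
  sInf ((↑) '' {k : ℝ | 0 < k ∧ ∀ κ > k, Conv Ω κ Θ₀})

lemma kc_le (n : ℕ) : kc (Fin.cons 1 0 : Fin (n + 1) → ℝ) ≤ (1 : ℝ) := by
  refine sInf_le ⟨1, ⟨one_pos, fun κ hκ => ?_⟩, rfl⟩
  have c : ContinuousOn (fun x => κ / (n + 1) * ((1 + cos x) * sin x + n * (2 * sin x))) (Icc 0 (π / 2)) := by fun_prop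
  obtain ⟨x, -, hx⟩ := intermediate_value_Icc (by positivity) c (show (1 : ℝ) ∈ _ from ⟨by simp, by
    simp only [cos_pi_div_two, sin_pi_div_two]
    rw [div_mul_eq_mul_div, le_div_iff₀ (by positivity)]
    nlinarith [n.cast_nonneg (α := ℝ)]⟩)
  refine ⟨Fin.cons x 0, fun i => ?_⟩
  cases i using Fin.cases with
  | zero => simp only at hx; simp [W, Fin.sum_univ_succ, one_add_one_eq_two]; linarith
  | succ i => simp [W]

lemma stay {u r : ℝ → ℝ} {K : ℝ} (hr : ∀ t, |r t| ≤ K) (h0 : u 0 = π) (hc : ContinuousOn u (Ici 0))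
    (hd : ∀ t > 0, HasDerivAt u (r t * sin (u t)) t) {t : ℝ} (ht : 0 ≤ t) : u t = π := by
  have an : AntitoneOn (fun s => exp (-2 * K * s) * (u s - π) ^ 2) (Ici 0) := by
    have d : ∀ s ∈ interior (Ici (0 : ℝ)), HasDerivAt (fun s => exp (-2 * K * s) * (u s - π) ^ 2)
        (exp (-2 * K * s) * (-2 * K * 1) * (u s - π) ^ 2 +
          exp (-2 * K * s) * ((2 : ℕ) * (u s - π) ^ (2 - 1) * (r s * sin (u s)))) s := fun s hs =>
      ((hasDerivAt_id s).const_mul (-2 * K)).exp.mul (((hd s (by simpa using hs)).sub_const π).pow 2)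
    refine antitoneOn_of_deriv_nonpos (convex_Ici 0) (by fun_prop)
      (fun s hs => (d s hs).differentiableAt.differentiableWithinAt) fun s hs => ?_
    rw [(d s hs).deriv]
    have h1 : |sin (u s)| ≤ |u s - π| := by simpa [sin_sub_pi] using abs_sin_le_abs (x := u s - π)
    have h2 : (u s - π) * (r s * sin (u s)) ≤ K * (u s - π) ^ 2 := by
      refine (le_abs_self _).trans ?_
      rw [abs_mul, abs_mul, ← sq_abs]
      nlinarith [mul_le_mul (hr s) h1 (abs_nonneg _) ((abs_nonneg _).trans (hr s)), abs_nonneg (u s - π)]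
    have := exp_pos (-(2 * K * s))
    norm_num
    nlinarith
  have := an (mem_Ici.2 le_rfl) ht ht
  simp only [h0, sub_self] at this
  have e : (u t - π) ^ 2 ≤ 0 := by nlinarith [exp_pos (-2 * K * t), sq_nonneg (u t - π)]
  nlinarith

lemma le_kpc (n : ℕ) : (((n + 1 : ℝ) / 4 : ℝ) : EReal) ≤ kpc (Fin.cons 0 fun _ => π) (Fin.cons 1 0 : Fin (n + 1) → ℝ) := by
  refine le_sInf ?_
  rintro _ ⟨k, ⟨k0, hk⟩, rfl⟩
  refine EReal.coe_le_coe_iff.2 (not_lt.1 fun l => ?_)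
  obtain ⟨Θ, ⟨h0, hΘ⟩, cv⟩ := hk _ l
  have n0 : (0 : ℝ) < n + 1 := by positivity
  have st : ∀ i : Fin n, ∀ t, 0 ≤ t → Θ t i.succ = π := fun i t ht => by
    refine stay (r := fun t => -(1 / 4 * ∑ j, (1 + cos (Θ t j)))) (K := n + 1) (fun t => ?_) (by simp [h0])
      (hΘ _).1 (fun t ht => ((hΘ _).2 t ht).congr_deriv ?_) ht
    · have a : 0 ≤ ∑ j, (1 + cos (Θ t j)) := Finset.sum_nonneg fun j _ => by linarith [neg_one_le_cos (Θ t j)]
      have b : ∑ j, (1 + cos (Θ t j)) ≤ ∑ _j : Fin (n + 1), (2 : ℝ) :=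
        Finset.sum_le_sum fun j _ => by linarith [cos_le_one (Θ t j)]
      simp only [Finset.sum_const, Finset.card_univ, Fintype.card_fin, nsmul_eq_mul, Nat.cast_add, Nat.cast_one] at b
      rw [abs_neg, abs_of_nonneg (by positivity)]
      linarith
    · simp only [W, Fin.cons_succ, Pi.zero_apply, ← Finset.sum_mul]
      push_cast
      field_simp
      ring
  have mo : MonotoneOn (fun t => Θ t 0 - t / 2) (Ici 0) := by
    have d : ∀ s ∈ interior (Ici (0 : ℝ)), HasDerivAt (fun t => Θ t 0 - t / 2) (_ - 1 / 2) s := fun s hs =>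
      ((hΘ 0).2 s (by simpa using hs)).sub ((hasDerivAt_id s).div_const 2)
    refine monotoneOn_of_deriv_nonneg (convex_Ici 0) ((hΘ 0).1.sub (by fun_prop))
      (fun s hs => (d s hs).differentiableAt.differentiableWithinAt) fun s hs => ?_
    rw [(d s hs).deriv]
    have e : (n + 1 : ℝ) / 4 / (n + 1) = 1 / 4 := by field_simp
    simp only [W, Fin.sum_univ_succ, st _ s (interior_subset hs), cos_pi, Fin.cons_zero]
    push_cast
    rw [e]
    have := sin_le_one (Θ s 0)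
    have := cos_le_one (Θ s 0)
    have := neg_one_le_cos (Θ s 0)
    simp only [add_neg_cancel, zero_mul, Finset.sum_const_zero]
    nlinarith
  obtain ⟨L, hL⟩ := cv 0
  refine not_tendsto_atTop_of_tendsto_nhds hL (tendsto_atTop_mono' _ ((eventually_ge_atTop 0).mono fun t ht => ?_)
    (tendsto_id.atTop_div_const two_pos))
  have := mo (mem_Ici.2 le_rfl) ht ht
  simp only [h0, Fin.cons_zero] at this
  simp only [id]
  linarith

theorem result (c : ℝ) : ∃ (N : ℕ) (Ω Θ₀ : Fin N → ℝ), 1 ≤ N ∧ kc Ω < kpc Θ₀ Ω ∧ ((c * ‖Ω‖ : ℝ) : EReal) < kpc Θ₀ Ω := by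
  obtain ⟨n, hn⟩ := exists_nat_ge (4 * (|c| + 1))
  refine ⟨n + 1, Fin.cons 1 0, _, by omega, ((kc_le n).trans_lt ?_).trans_le (le_kpc n), lt_of_lt_of_le ?_ (le_kpc n)⟩
  · exact EReal.coe_lt_coe_iff.2 (by linarith [abs_nonneg c])
  · have : ‖(Fin.cons 1 0 : Fin (n + 1) → ℝ)‖ ≤ 1 := (pi_norm_le_iff_of_nonneg zero_le_one).2 fun i => by
      cases i using Fin.cases <;> simp
    exact EReal.coe_lt_coe_iff.2 (by nlinarith [le_abs_self c, abs_nonneg c, norm_nonneg (Fin.cons 1 0 : Fin (n + 1) → ℝ)])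

end Pool.Agent.Results.MP_4423d6_an.Strong
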